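import Pool.Agent.Helper14.TH7.StD

/-!
# Project TH (levels `2 * 7^n`), module Lif: lifting symbols modulo 7 to integral symbols
-/

set_option autoImplicit false

namespace Pool.Agent.Helper2.TH7

open Pool.Agent.Helper14.TH7
open Pool.Agent.Helper14.CV (Homog EqC act Tl)
open Pool.Agent.Helper93.TLH (HTy SymH)
open Pool.Agent.Helper76.TH7 (edgeH)
open Pool.Agent.Helper84.S7

/-- the reduction modulo seven -/
private def red (G : ℤ → ℤ → ℤ) : ℤ → ℤ → ZMod 7 := fun p q => ((G p q : ℤ) : ZMod 7)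

private theorem red_Sym {r s : ℕ} {G : ℤ → ℤ → ℤ} (h : SymH 7 r s G) : SymH 7 r s (red G) := by
  refine ⟨?_, ?_⟩
  · intro k p q hk hpq
    change ((G (k * p) (k * q) : ℤ) : ZMod 7) = ((G p q : ℤ) : ZMod 7)
    rw [h.1 k p q hk hpq]
  · intro a b c d hdet hb hc
    obtain ⟨e, he⟩ := h.2 a b c d hdet hb hc
    refine ⟨(e : ZMod 7), ?_⟩
    intro p q hpq
    have h1 := he p q hpq
    have h2 : G (a * p + b * q) (c * p + d * q) = G p q + e := h1
    change ((G (a * p + b * q) (c * p + d * q) : ℤ) : ZMod 7) = ((G p q : ℤ) : ZMod 7) + e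
    rw [h2, Int.cast_add]

private theorem red_Tl (l : ℕ) (m : ℤ) (G : ℤ → ℤ → ℤ) : Tl l m (red G) = red (Tl l m G) := by
  funext p q
  change red G (l * p) q + ∑ j ∈ Finset.range l, red G (p + m * j * q) (l * q)
    = ((G (l * p) q + ∑ j ∈ Finset.range l, G (p + m * j * q) (l * q) : ℤ) : ZMod 7)
  rw [Int.cast_add, Int.cast_sum]
  rfl

private theorem red_add (G H : ℤ → ℤ → ℤ) : red G + red H = red (G + H) := by
  funext p q
  simp only [Pi.add_apply, red, Int.cast_add]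

private theorem red_zsmul (k : ℤ) (G : ℤ → ℤ → ℤ) : k • red G = red (k • G) := by
  funext p q
  simp only [Pi.smul_apply, red, zsmul_eq_mul, smul_eq_mul, Int.cast_mul]

private theorem red_UoH (m : ℤ) (G : ℤ → ℤ → ℤ) : UoH m (red G) = red (UoH m G) := by
  simp only [UoH, red_Tl, red_add, red_zsmul]

private theorem red_VoH (m : ℤ) (G : ℤ → ℤ → ℤ) : VoH m (red G) = red (VoH m G) := by
  simp only [VoH, red_Tl, red_add, red_zsmul]

private theorem red_OoH (c : ℕ) (m : ℤ) (G : ℤ → ℤ → ℤ) : OoH c m (red G) = red (OoH c m G) := by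
  unfold OoH
  split_ifs <;> simp only [red_Tl, red_add, red_zsmul]

private theorem red_iter (U : (ℤ → ℤ → ZMod 7) → (ℤ → ℤ → ZMod 7))
    (V : (ℤ → ℤ → ℤ) → (ℤ → ℤ → ℤ)) (h : ∀ G, U (red G) = red (V G)) (i : ℕ) (G : ℤ → ℤ → ℤ) :
    U^[i] (red G) = red (V^[i] G) := by
  induction i generalizing G with
  | zero => rfl
  | succ i ih =>
    rw [Function.iterate_succ_apply, Function.iterate_succ_apply, h, ih]

private theorem red_ev (m : ℤ) (G : ℤ → ℤ → ℤ) (c i j : ℕ) :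
    evH m (red G) c i j = ((evH m G c i j : ℤ) : ZMod 7) := by
  unfold evH
  rw [red_iter (VoH m) (VoH m) (red_VoH m), red_iter (UoH m) (UoH m) (red_UoH m),
    red_OoH, Int.cast_sub]
  rfl

private theorem red_pf {q q' : ℕ} (G : ℤ → ℤ → ℤ) (i : Fin 3) (x : ZMod q) (y : ZMod q') :
    pfH (red G) i x y = ((pfH G i x y : ℤ) : ZMod 7) := by
  unfold pfH edgeH
  rw [Int.cast_sub]
  rfl

private theorem sub_pf {q q' : ℕ} (G H : ℤ → ℤ → ZMod 7) (i : Fin 3) (x : ZMod q) (y : ZMod q') :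
    pfH (G + -H) i x y = pfH G i x y - pfH H i x y := by
  unfold pfH edgeH
  simp only [Pi.add_apply, Pi.neg_apply]
  abel

/-! `evH` depends only on the class up to constants -/

private theorem eqC_Tl {G H : ℤ → ℤ → ZMod 7} (l : ℕ) (hl : l ≠ 0) (m : ℤ) (h : EqC G H) :
    EqC (Tl l m G) (Tl l m H) := by
  obtain ⟨c, hc⟩ := h
  refine ⟨c + (l : ZMod 7) * c, fun p q hpq => ?_⟩
  have hl' : (l : ℤ) ≠ 0 := by exact_mod_cast hl
  simp only [Tl]
  rw [hc (l * p) q (by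
    rcases hpq with h0 | h0
    · exact Or.inl (mul_ne_zero hl' h0)
    · exact Or.inr h0)]
  have hs : ∑ j ∈ Finset.range l, G (p + m * j * q) (l * q) =
      ∑ j ∈ Finset.range l, (H (p + m * j * q) (l * q) + c) := by
    refine Finset.sum_congr rfl fun j _ => hc _ _ ?_
    by_cases hq : q = 0
    · left
      rcases hpq with h0 | h0
      · rw [hq, mul_zero, add_zero]; exact h0
      · exact absurd hq h0
    · right
      exact mul_ne_zero hl' hq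
  rw [hs, Finset.sum_add_distrib, Finset.sum_const, Finset.card_range, nsmul_eq_mul]
  ring

private theorem eqC_add {G H G' H' : ℤ → ℤ → ZMod 7} (h : EqC G H) (h' : EqC G' H') :
    EqC (G + G') (H + H') := by
  obtain ⟨c, hc⟩ := h
  obtain ⟨c', hc'⟩ := h'
  refine ⟨c + c', fun p q hpq => ?_⟩
  simp only [Pi.add_apply]
  rw [hc p q hpq, hc' p q hpq]
  ring

private theorem eqC_zsmul {G H : ℤ → ℤ → ZMod 7} (k : ℤ) (h : EqC G H) :
    EqC (k • G) (k • H) := by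
  obtain ⟨c, hc⟩ := h
  refine ⟨k • c, fun p q hpq => ?_⟩
  simp only [Pi.smul_apply]
  rw [hc p q hpq, smul_add]

/-- the multiple of a Hecke operator -/
private theorem eqC_kT {G H : ℤ → ℤ → ZMod 7} (k : ℤ) (l : ℕ) (hl : l ≠ 0) (m : ℤ) (h : EqC G H) :
    EqC (k • Tl l m G) (k • Tl l m H) := eqC_zsmul k (eqC_Tl l hl m h)

private theorem n3 : (3 : ℕ) ≠ 0 := by norm_num
private theorem n5 : (5 : ℕ) ≠ 0 := by norm_num
private theorem n11 : (11 : ℕ) ≠ 0 := by norm_num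
private theorem n13 : (13 : ℕ) ≠ 0 := by norm_num
private theorem n17 : (17 : ℕ) ≠ 0 := by norm_num
private theorem n19 : (19 : ℕ) ≠ 0 := by norm_num
private theorem n23 : (23 : ℕ) ≠ 0 := by norm_num
private theorem n29 : (29 : ℕ) ≠ 0 := by norm_num
private theorem n37 : (37 : ℕ) ≠ 0 := by norm_num

private theorem eqC_Uo {G H : ℤ → ℤ → ZMod 7} (m : ℤ) (h : EqC G H) : EqC (UoH m G) (UoH m H) :=
  eqC_add (eqC_add (eqC_add (eqC_add (eqC_add (eqC_zsmul 3 h) (eqC_kT 3 11 n11 m h))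
    (eqC_kT 5 23 n23 m h)) (eqC_kT 5 29 n29 m h)) (eqC_kT 5 37 n37 m h))
    (eqC_kT 6 3 n3 m (eqC_Tl 3 n3 m h))

private theorem eqC_Vo {G H : ℤ → ℤ → ZMod 7} (m : ℤ) (h : EqC G H) : EqC (VoH m G) (VoH m H) :=
  eqC_add (eqC_add (eqC_add (eqC_add (eqC_add (eqC_kT 5 11 n11 m h) (eqC_kT 4 23 n23 m h))
    (eqC_kT 5 29 n29 m h)) (eqC_Tl 37 n37 m h))
    (eqC_Tl 3 n3 m (eqC_add (eqC_add (eqC_Tl 3 n3 m h) (eqC_kT 3 5 n5 m h)) (eqC_kT 3 13 n13 m h))))
    (eqC_Tl 5 n5 m (eqC_add (eqC_add (eqC_add (eqC_kT 6 5 n5 m h) (eqC_kT 4 13 n13 m h))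
      (eqC_kT 2 17 n17 m h)) (eqC_kT 4 19 n19 m h)))

private theorem eqC_Oo {G H : ℤ → ℤ → ZMod 7} (c : ℕ) (m : ℤ) (h : EqC G H) :
    EqC (OoH c m G) (OoH c m H) := by
  unfold OoH
  split_ifs
  · exact h
  · exact eqC_add (eqC_zsmul 2 h) (eqC_kT 3 3 n3 m h)
  · exact eqC_add (eqC_add (eqC_zsmul 4 h) (eqC_kT 2 3 n3 m h)) (eqC_kT 5 5 n5 m h)
  · exact eqC_add (eqC_add (eqC_add (eqC_add (eqC_add (eqC_zsmul 5 h) (eqC_kT 3 3 n3 m h))
      (eqC_kT 3 5 n5 m h)) (eqC_kT 4 11 n11 m h)) (eqC_Tl 13 n13 m h)) (eqC_kT 2 17 n17 m h)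
  · exact eqC_add (eqC_add (eqC_add (eqC_kT 3 3 n3 m h) (eqC_kT 5 13 n13 m h))
      (eqC_kT 2 17 n17 m h)) (eqC_kT 5 3 n3 m (eqC_Tl 5 n5 m h))
  · exact eqC_add (eqC_add (eqC_add (eqC_add (eqC_add (eqC_add (eqC_add (eqC_add (eqC_add
      (eqC_zsmul 6 h) (eqC_Tl 5 n5 m h)) (eqC_kT 3 13 n13 m h)) (eqC_kT 4 17 n17 m h))
      (eqC_Tl 19 n19 m h)) (eqC_kT 2 23 n23 m h)) (eqC_kT 2 29 n29 m h)) (eqC_kT 2 37 n37 m h))
      (eqC_kT 4 3 n3 m (eqC_Tl 3 n3 m h))) (eqC_kT 4 3 n3 m (eqC_Tl 5 n5 m h))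

private theorem eqC_iter (U : (ℤ → ℤ → ZMod 7) → (ℤ → ℤ → ZMod 7))
    (hU : ∀ G H, EqC G H → EqC (U G) (U H)) (i : ℕ) {G H : ℤ → ℤ → ZMod 7} (h : EqC G H) :
    EqC (U^[i] G) (U^[i] H) := by
  induction i generalizing G H with
  | zero => exact h
  | succ i ih =>
    rw [Function.iterate_succ_apply, Function.iterate_succ_apply]
    exact ih (hU G H h)

private theorem evH_congr (m : ℤ) {G H : ℤ → ℤ → ZMod 7} (h : EqC G H) (c i j : ℕ) :
    evH m G c i j = evH m H c i j := by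
  obtain ⟨e, he⟩ := eqC_Oo c m
    (eqC_iter (UoH m) (fun _ _ => eqC_Uo m) i (eqC_iter (VoH m) (fun _ _ => eqC_Vo m) j h))
  unfold evH
  rw [he 1 0 (Or.inl one_ne_zero), he 0 1 (Or.inr one_ne_zero)]
  ring

/-- MODULE Lif. -/
theorem hLif (hr : TRel) (hp : TLifp) (hx : TEx) (hu : TUni) : TLif := by
  intro r s g hg
  have h1 := hr (ZMod 7) _ r s g hg
  obtain ⟨F, hF, hF1⟩ := hp r s _ h1
  obtain ⟨G, hG, hG1⟩ := hx ℤ _ r s F hF
  refine ⟨G, hG, ?_⟩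
  have h2 : SymH 7 r (s + 1) (red G + -g) :=
    Pool.Agent.Helper93.TLH.SymH.add (red_Sym hG) (Pool.Agent.Helper93.TLH.SymH.neg hg)
  have h3 : EqC (red G + -g) 0 := by
    refine hu (ZMod 7) _ r s _ h2 fun i => ?_
    funext x y
    rw [sub_pf, red_pf, hG1, hF1, sub_self]
    rfl
  have h4 : EqC (red G) g := by
    obtain ⟨c, hc⟩ := h3
    refine ⟨c, fun p q hpq => ?_⟩
    have h5 := hc p q hpq
    simp only [Pi.add_apply, Pi.neg_apply, Pi.zero_apply, zero_add] at h5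
    rw [← h5]
    abel
  intro c i j
  rw [← red_ev]
  exact evH_congr _ h4 c i j

end Pool.Agent.Helper2.TH7
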